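import Pool.Agent.Q123.CC.Sharp

/-!
# Hadamard matrices whose signed rows are closed under a Boolean operation
-/

namespace Q123.HR

open Finset Q123.CC

/-- The sign `1` for `0` and `-1` for `1`. -/
def sgn (a : ZMod 2) : ℤ := if a = 0 then 1 else -1

/-- A Hadamard matrix of order `n`. -/
def IsHadamard {n : ℕ} (H : Matrix (Fin n) (Fin n) ℤ) : Prop :=
  (∀ i j, H i j = 1 ∨ H i j = -1) ∧ H * H.transpose = (n : ℤ) • (1 : Matrix (Fin n) (Fin n) ℤ)

/-- The binary words of the rows of `H` and of the negatives of the rows of `H`. -/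
def signedRows {n : ℕ} (H : Matrix (Fin n) (Fin n) ℤ) : Finset (Fin n → ZMod 2) :=
  univ.filter fun w => ∃ i, (∀ j, sgn (w j) = H i j) ∨ (∀ j, sgn (w j) = -H i j)

theorem sgn_add (a b : ZMod 2) : sgn (a + b) = sgn a * sgn b := by
  revert a b
  decide

theorem sgn_one : sgn 1 = -1 := by decide

theorem sgn_zero : sgn 0 = 1 := by decide

theorem sgn_injective : Function.Injective sgn := by
  intro a b
  revert a b
  decide

theorem sgn_ne (c c' : ZMod 2) : sgn c * sgn c' ≠ 0 := by
  revert c c'
  decide

theorem eq_of_sgn (c c' : ZMod 2) (h : sgn c * sgn c' = 1) : c = c' := by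
  revert c c'
  decide

theorem sgn_of_ne (c c' : ZMod 2) (h : c ≠ c') : sgn c * sgn c' = -1 := by
  revert c c'
  decide

theorem sgn_mul_self (a : ZMod 2) : sgn a * sgn a = 1 := by
  revert a
  decide

/-- The inner product of two sign vectors and the Hamming distance. -/
theorem sum_sgn {n : ℕ} (x y : Fin n → ZMod 2) :
    ∑ j, sgn (x j) * sgn (y j) = (n : ℤ) - 2 * hammingDist x y := by
  have h1 : ∀ j, sgn (x j) * sgn (y j) = 1 - 2 * (if x j ≠ y j then (1 : ℤ) else 0) := by
    intro j
    rcases zmod2_cases (x j) with hx | hx <;> rcases zmod2_cases (y j) with hy | hy <;>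
      rw [hx, hy] <;> decide
  rw [sum_congr rfl (fun j _ => h1 j), sum_sub_distrib, ← mul_sum, sum_const, card_univ,
    Fintype.card_fin]
  unfold hammingDist
  rw [card_filter]
  push_cast
  simp

/-- The word of a row. -/
def word {n : ℕ} (H : Matrix (Fin n) (Fin n) ℤ) (i : Fin n) : Fin n → ZMod 2 :=
  fun j => if H i j = 1 then 0 else 1

theorem sgn_word {n : ℕ} {H : Matrix (Fin n) (Fin n) ℤ} (hH : IsHadamard H) (i j : Fin n) :
    sgn (word H i j) = H i j := by
  unfold word sgn
  rcases hH.1 i j with h | h <;> rw [h] <;> simp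

theorem row_inner {n : ℕ} {H : Matrix (Fin n) (Fin n) ℤ} (hH : IsHadamard H) (i i' : Fin n) :
    ∑ j, H i j * H i' j = if i = i' then (n : ℤ) else 0 := by
  have h := congrFun (congrFun hH.2 i) i'
  rw [Matrix.mul_apply] at h
  simp only [Matrix.transpose_apply, Matrix.smul_apply, Matrix.one_apply, smul_eq_mul] at h
  rw [h]
  split_ifs <;> simp

theorem mem_signedRows {n : ℕ} {H : Matrix (Fin n) (Fin n) ℤ} (hH : IsHadamard H)
    (w : Fin n → ZMod 2) : w ∈ signedRows H ↔ ∃ i, ∃ c : ZMod 2, w = fun j => word H i j + c := by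
  unfold signedRows
  rw [mem_filter]
  constructor
  · rintro ⟨-, i, h | h⟩
    · refine ⟨i, 0, ?_⟩
      funext j
      apply sgn_injective
      rw [h j, add_zero, sgn_word hH]
    · refine ⟨i, 1, ?_⟩
      funext j
      apply sgn_injective
      rw [h j, sgn_add, sgn_word hH, sgn_one]
      ring
  · rintro ⟨i, c, rfl⟩
    refine ⟨mem_univ _, i, ?_⟩
    rcases zmod2_cases c with rfl | rfl
    · left
      intro j
      show sgn (word H i j + 0) = H i j
      rw [add_zero, sgn_word hH]
    · right
      intro j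
      show sgn (word H i j + 1) = -H i j
      rw [sgn_add, sgn_word hH, sgn_one]
      ring

theorem pair_injective {n : ℕ} (hn : 0 < n) {H : Matrix (Fin n) (Fin n) ℤ} (hH : IsHadamard H) :
    Function.Injective (fun p : Fin n × ZMod 2 => fun j => word H p.1 j + p.2) := by
  rintro ⟨i, c⟩ ⟨i', c'⟩ h
  have hj : ∀ j, H i j * sgn c = H i' j * sgn c' := by
    intro j
    have h1 : word H i j + c = word H i' j + c' := congrFun h j
    have h2 := congrArg sgn h1
    rw [sgn_add, sgn_add, sgn_word hH, sgn_word hH] at h2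
    exact h2
  have h3 : ∑ j, H i j * H i' j = (n : ℤ) * (sgn c * sgn c') := by
    have h4 : ∀ j, H i j * H i' j = sgn c * sgn c' := by
      intro j
      have h5 : H i' j * H i' j = 1 := by
        rcases hH.1 i' j with h | h <;> rw [h] <;> norm_num
      have h6 : H i j = H i' j * sgn c' * sgn c := by
        rw [← hj j, mul_assoc, sgn_mul_self, mul_one]
      rw [h6]
      calc H i' j * sgn c' * sgn c * H i' j = (H i' j * H i' j) * (sgn c * sgn c') := by ring
        _ = sgn c * sgn c' := by rw [h5, one_mul]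
    rw [sum_congr rfl (fun j _ => h4 j), sum_const, card_univ, Fintype.card_fin, nsmul_eq_mul]
  rw [row_inner hH] at h3
  have hne : sgn c * sgn c' ≠ 0 := sgn_ne c c'
  have hnZ : (n : ℤ) ≠ 0 := by exact_mod_cast hn.ne'
  by_cases hii : i = i'
  · subst hii
    rw [if_pos rfl] at h3
    have h7 : sgn c * sgn c' = 1 := by
      have : (n : ℤ) * 1 = n * (sgn c * sgn c') := by rw [mul_one]; exact h3
      exact (mul_left_cancel₀ hnZ this).symm
    have h8 : c = c' := eq_of_sgn c c' h7
    rw [h8]
  · rw [if_neg hii] at h3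
    exact absurd h3.symm (mul_ne_zero hnZ hne)

theorem card_signedRows {n : ℕ} (hn : 0 < n) {H : Matrix (Fin n) (Fin n) ℤ}
    (hH : IsHadamard H) : (signedRows H).card = 2 * n := by
  have e : signedRows H = univ.image (fun p : Fin n × ZMod 2 => fun j => word H p.1 j + p.2) := by
    ext w
    rw [mem_signedRows hH, mem_image]
    constructor
    · rintro ⟨i, c, rfl⟩
      exact ⟨(i, c), mem_univ _, rfl⟩
    · rintro ⟨⟨i, c⟩, -, rfl⟩
      exact ⟨i, c, rfl⟩
  rw [e, card_image_of_injective _ (pair_injective hn hH), card_univ]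
  simp [mul_comm]

theorem minDist_signedRows {n : ℕ} {H : Matrix (Fin n) (Fin n) ℤ}
    (hH : IsHadamard H) : MinDist ((n + 1) / 2) (signedRows H) := by
  intro x hx y hy hxy
  rw [mem_signedRows hH] at hx hy
  obtain ⟨i, c, rfl⟩ := hx
  obtain ⟨i', c', rfl⟩ := hy
  have h1 := sum_sgn (fun j => word H i j + c) (fun j => word H i' j + c')
  have h2 : ∑ j, sgn (word H i j + c) * sgn (word H i' j + c')
      = (sgn c * sgn c') * ∑ j, H i j * H i' j := by
    rw [mul_sum]
    apply sum_congr rfl
    intro j _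
    rw [sgn_add, sgn_add, sgn_word hH, sgn_word hH]
    ring
  rw [h2, row_inner hH] at h1
  have h3 : (n : ℤ) ≤ 2 * (hammingDist (fun j => word H i j + c) (fun j => word H i' j + c') : ℤ) := by
    by_cases hii : i = i'
    · subst hii
      rw [if_pos rfl] at h1
      have hcc : c ≠ c' := fun h => hxy (by rw [h])
      have h4 : sgn c * sgn c' = -1 := sgn_of_ne c c' hcc
      rw [h4] at h1
      have : (0 : ℤ) ≤ n := Nat.cast_nonneg n
      linarith
    · rw [if_neg hii, mul_zero] at h1
      linarith
  have h5 : n ≤ 2 * hammingDist (fun j => word H i j + c) (fun j => word H i' j + c') := by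
    exact_mod_cast h3
  omega

/-- **Operations that are not affine.** -/
theorem order_le_two {n k : ℕ} (hn : 0 < n) {H : Matrix (Fin n) (Fin n) ℤ} (hH : IsHadamard H)
    {f : (Fin k → ZMod 2) → ZMod 2} (hf : ¬ IsAffine f) (hC : ClosedUnder f (signedRows H)) :
    n ≤ 2 := by
  have h1 := card_le_of_three (d := (n + 1) / 2) (by omega) (signedRows H)
    (target_of_closed hf _ hC) (minDist_signedRows hH)
  rw [card_signedRows hn hH] at h1
  have h2 : n / ((n + 1) / 2) ≤ 2 := by
    apply Nat.div_le_of_le_mul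
    omega
  have h3 : 2 ^ (n / ((n + 1) / 2)) ≤ 2 ^ 2 := Nat.pow_le_pow_right (by norm_num) h2
  omega

/-- **Affine operations of at least two variables.** -/
theorem order_two_pow {n k : ℕ} (hn : 0 < n) {H : Matrix (Fin n) (Fin n) ℤ} (hH : IsHadamard H)
    {f : (Fin k → ZMod 2) → ZMod 2} {c : ZMod 2} {s : Finset (Fin k)} (hs : 2 ≤ s.card)
    (hf : ∀ x, f x = c + ∑ i ∈ s, x i) (hC : ClosedUnder f (signedRows H)) :
    ∃ r, n = 2 ^ r := by
  classical
  have hne : (signedRows H).Nonempty := by
    apply card_pos.mp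
    rw [card_signedRows hn hH]
    omega
  obtain ⟨W, c₀, hW⟩ := coset_of_affine hs hf (signedRows H) hC hne
  have hcc : c₀ + c₀ = 0 := by
    funext j
    exact CharTwo.add_self_eq_zero (c₀ j)
  have hcard : Nat.card W = 2 * n := by
    rw [← card_signedRows hn hH, ← Nat.card_eq_finsetCard (signedRows H)]
    symm
    apply Nat.card_congr
    exact
      { toFun := fun x => ⟨x.1 + c₀, (hW x.1).mp x.2⟩
        invFun := fun y => ⟨y.1 + c₀, (hW _).mpr (by
          rw [add_assoc, hcc, add_zero]
          exact y.2)⟩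
        left_inv := fun x => Subtype.ext (by
          show x.1 + c₀ + c₀ = x.1
          rw [add_assoc, hcc, add_zero])
        right_inv := fun y => Subtype.ext (by
          show y.1 + c₀ + c₀ = y.1
          rw [add_assoc, hcc, add_zero]) }
  have hpow : Nat.card W = 2 ^ Module.finrank (ZMod 2) W := by
    have := Module.natCard_eq_pow_finrank (K := ZMod 2) (V := W)
    rw [this, Nat.card_zmod]
  rw [hpow] at hcard
  obtain ⟨r, hr⟩ : ∃ r, Module.finrank (ZMod 2) W = r + 1 := by
    refine ⟨Module.finrank (ZMod 2) W - 1, ?_⟩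
    have : Module.finrank (ZMod 2) W ≠ 0 := by
      intro h0
      rw [h0] at hcard
      omega
    omega
  refine ⟨r, ?_⟩
  rw [hr, pow_succ] at hcard
  omega

end Q123.HR
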