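import Pool.Agent.Q123.HR.Basic

/-!
# Existence: Sylvester matrices and normalised matrices
-/

namespace Q123.HR

open Finset Q123.CC

/-- The dot product of binary words. -/
def dot {r : ℕ} (a b : Fin r → ZMod 2) : ZMod 2 := ∑ l, a l * b l

theorem dot_add_left {r : ℕ} (a a' b : Fin r → ZMod 2) : dot (a + a') b = dot a b + dot a' b := by
  unfold dot
  rw [← sum_add_distrib]
  apply sum_congr rfl
  intro l _
  rw [Pi.add_apply, add_mul]

theorem dot_add_right {r : ℕ} (a b b' : Fin r → ZMod 2) : dot a (b + b') = dot a b + dot a b' := by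
  unfold dot
  rw [← sum_add_distrib]
  apply sum_congr rfl
  intro l _
  rw [Pi.add_apply, mul_add]

theorem sum_sgn_dot {r : ℕ} (a : Fin r → ZMod 2) (ha : a ≠ 0) : ∑ b, sgn (dot a b) = 0 := by
  classical
  obtain ⟨l, hl⟩ := Function.ne_iff.mp ha
  have hl1 : a l = 1 := (zmod2_cases (a l)).resolve_left hl
  have hdot : dot a (Pi.single l 1) = 1 := by
    unfold dot
    rw [sum_eq_single l]
    · rw [Pi.single_eq_same, hl1, mul_one]
    · intro j _ hj
      rw [Pi.single_eq_of_ne hj, mul_zero]
    · intro h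
      exact absurd (mem_univ l) h
  have h1 : ∑ b, sgn (dot a (b + Pi.single l 1)) = ∑ b, sgn (dot a b) :=
    Fintype.sum_equiv (Equiv.addRight (Pi.single l (1 : ZMod 2))) _ _ (fun _ => rfl)
  have h2 : ∀ b, sgn (dot a (b + Pi.single l 1)) = -sgn (dot a b) := by
    intro b
    rw [dot_add_right, hdot, sgn_add, sgn_one]
    ring
  rw [sum_congr rfl (fun b _ => h2 b), sum_neg_distrib] at h1
  generalize ∑ b, sgn (dot a b) = S at h1
  omega

/-- The Sylvester matrix of order `2 ^ r`. -/
noncomputable def sylvester (r : ℕ) (e : Fin (2 ^ r) ≃ (Fin r → ZMod 2)) :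
    Matrix (Fin (2 ^ r)) (Fin (2 ^ r)) ℤ := fun i j => sgn (dot (e i) (e j))

theorem sylvester_hadamard (r : ℕ) (e : Fin (2 ^ r) ≃ (Fin r → ZMod 2)) :
    IsHadamard (sylvester r e) := by
  classical
  constructor
  · intro i j
    unfold sylvester sgn
    split_ifs
    · exact Or.inl rfl
    · exact Or.inr rfl
  · ext i i'
    rw [Matrix.mul_apply]
    simp only [Matrix.transpose_apply, Matrix.smul_apply, Matrix.one_apply, smul_eq_mul]
    have h1 : ∀ j, sylvester r e i j * sylvester r e i' j = sgn (dot (e i + e i') (e j)) := by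
      intro j
      unfold sylvester
      rw [dot_add_left, sgn_add]
    rw [sum_congr rfl (fun j _ => h1 j)]
    rw [Equiv.sum_comp e (fun b => sgn (dot (e i + e i') b))]
    by_cases hii : i = i'
    · subst hii
      have h2 : e i + e i = 0 := by
        funext j
        exact CharTwo.add_self_eq_zero (e i j)
      rw [h2, if_pos rfl]
      have h3 : ∀ b : Fin r → ZMod 2, sgn (dot 0 b) = 1 := by
        intro b
        unfold dot
        simp [sgn_zero]
      rw [sum_congr rfl (fun b _ => h3 b)]
      simp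
    · rw [if_neg hii, mul_zero]
      apply sum_sgn_dot
      intro h
      apply hii
      apply e.injective
      funext j
      have := congrFun h j
      rw [Pi.add_apply, Pi.zero_apply] at this
      rw [← CharTwo.add_eq_zero]
      exact this

theorem word_sylvester (r : ℕ) (e : Fin (2 ^ r) ≃ (Fin r → ZMod 2)) (i j : Fin (2 ^ r)) :
    word (sylvester r e) i j = dot (e i) (e j) := by
  apply sgn_injective
  rw [sgn_word (sylvester_hadamard r e)]
  rfl

/-- The signed rows of the Sylvester matrix are closed under affine operations. -/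
theorem sylvester_closed (r : ℕ) (e : Fin (2 ^ r) ≃ (Fin r → ZMod 2)) {k : ℕ}
    {f : (Fin k → ZMod 2) → ZMod 2} {c : ZMod 2} {s : Finset (Fin k)}
    (hf : ∀ x, f x = c + ∑ i ∈ s, x i) : ClosedUnder f (signedRows (sylvester r e)) := by
  classical
  intro w hw
  have hw' : ∀ p, ∃ i, ∃ b : ZMod 2, w p = fun j => word (sylvester r e) i j + b := fun p =>
    (mem_signedRows (sylvester_hadamard r e) _).mp (hw p)
  choose i b hib using hw'
  rw [mem_signedRows (sylvester_hadamard r e)]
  refine ⟨e.symm (∑ p ∈ s, e (i p)), c + ∑ p ∈ s, b p, ?_⟩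
  funext j
  rw [hf, word_sylvester, Equiv.apply_symm_apply]
  have h1 : ∀ p, w p j = dot (e (i p)) (e j) + b p := by
    intro p
    rw [hib p, ← word_sylvester]
  rw [sum_congr rfl (fun p _ => h1 p), sum_add_distrib]
  have h2 : ∀ t : Finset (Fin k), ∑ p ∈ t, dot (e (i p)) (e j) = dot (∑ p ∈ t, e (i p)) (e j) := by
    intro t
    induction t using Finset.induction_on with
    | empty => simp [dot]
    | insert a t ha ih => rw [sum_insert ha, sum_insert ha, dot_add_left, ih]
  rw [h2]
  ring

/-- Orders one and two: all words are signed rows. -/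
theorem small_closed (r : ℕ) (hr : r ≤ 1) (e : Fin (2 ^ r) ≃ (Fin r → ZMod 2)) {k : ℕ}
    (f : (Fin k → ZMod 2) → ZMod 2) : ClosedUnder f (signedRows (sylvester r e)) := by
  have hcard := card_signedRows (Nat.two_pow_pos r) (sylvester_hadamard r e)
  have huniv : signedRows (sylvester r e) = univ := by
    apply eq_univ_of_card
    rw [hcard]
    simp only [Fintype.card_pi, ZMod.card, prod_const, card_univ, Fintype.card_fin]
    interval_cases r <;> rfl
  intro w _
  rw [huniv]
  exact mem_univ _

/-- Normalisation: some row is constant. -/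
theorem exists_normalised {n : ℕ} (hn : 0 < n) {H : Matrix (Fin n) (Fin n) ℤ}
    (hH : IsHadamard H) : ∃ H' : Matrix (Fin n) (Fin n) ℤ, IsHadamard H' ∧
      ∀ c : ZMod 2, (fun _ => c) ∈ signedRows H' := by
  classical
  set i₀ : Fin n := ⟨0, hn⟩
  have hsq : ∀ i j, H i j * H i j = 1 := by
    intro i j
    rcases hH.1 i j with h | h <;> rw [h] <;> norm_num
  have hH' : IsHadamard (fun i j => H i j * H i₀ j : Matrix (Fin n) (Fin n) ℤ) := by
    constructor
    · intro i j
      show H i j * H i₀ j = 1 ∨ H i j * H i₀ j = -1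
      rcases hH.1 i j with h | h <;> rcases hH.1 i₀ j with h' | h' <;> rw [h, h'] <;> norm_num
    · ext i i'
      rw [Matrix.mul_apply]
      simp only [Matrix.transpose_apply, Matrix.smul_apply, Matrix.one_apply, smul_eq_mul]
      have h1 : ∀ j, H i j * H i₀ j * (H i' j * H i₀ j) = H i j * H i' j := by
        intro j
        calc H i j * H i₀ j * (H i' j * H i₀ j) = H i j * H i' j * (H i₀ j * H i₀ j) := by ring
          _ = _ := by rw [hsq, mul_one]
      rw [sum_congr rfl (fun j _ => h1 j), row_inner hH]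
      split_ifs <;> simp
  refine ⟨_, hH', fun c => ?_⟩
  rw [mem_signedRows hH']
  refine ⟨i₀, c, ?_⟩
  funext j
  have h2 : word (fun i j => H i j * H i₀ j : Matrix (Fin n) (Fin n) ℤ) i₀ j = 0 := by
    apply sgn_injective
    rw [sgn_word hH', sgn_zero]
    exact hsq i₀ j
  rw [h2, zero_add]

/-- Operations depending on at most one variable. -/
theorem unary_closed {n k : ℕ} (hn : 0 < n) {f : (Fin k → ZMod 2) → ZMod 2} {c : ZMod 2}
    {s : Finset (Fin k)} (hs : s.card ≤ 1) (hf : ∀ x, f x = c + ∑ i ∈ s, x i)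
    (hex : ∃ H : Matrix (Fin n) (Fin n) ℤ, IsHadamard H) :
    ∃ H : Matrix (Fin n) (Fin n) ℤ, IsHadamard H ∧ ClosedUnder f (signedRows H) := by
  classical
  obtain ⟨H₀, hH₀⟩ := hex
  obtain ⟨H, hH, hconst⟩ := exists_normalised hn hH₀
  refine ⟨H, hH, ?_⟩
  intro w hw
  rcases Nat.lt_or_ge s.card 1 with h | h
  · have hs0 : s = ∅ := card_eq_zero.mp (by omega)
    have e : (fun j => f (fun i => w i j)) = fun _ => c := by
      funext j
      rw [hf, hs0, sum_empty, add_zero]
    rw [e]
    exact hconst c
  · obtain ⟨p, hp⟩ := card_eq_one.mp (le_antisymm hs h)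
    obtain ⟨i, b, hib⟩ := (mem_signedRows hH _).mp (hw p)
    rw [mem_signedRows hH]
    refine ⟨i, c + b, ?_⟩
    funext j
    rw [hf, hp, sum_singleton, hib]
    ring

end Q123.HR
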